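import Pool.Agent.V1167.GL.EC
import Pool.Agent.V11291.GS.Plane

/-!
# Meromorphic continuation of `L(E, s)` to the plane and Gaussian sums over prime powers

Let `E` be an elliptic curve over a number field `K`. Let `P_v(T)` be the local polynomial at the prime `v`:
`1 - a_v T + (N v) T²` for good reduction, `1 - T`, `1 + T`, `1` for split multiplicative, non-split multiplicative and
additive reduction, and `L(E, s) = ∏_v P_v((N v)^{-s})⁻¹`, the product over all primes of `K` (Mathlib's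
`WeierstrassCurve.LSeries`). Let `t_{v,k}` be the sum of the `k`-th powers of the reciprocal roots of `P_v` (for good
reduction `t_{v,k} = q^k + 1 - #E(𝔽_{q^k})`, `q = N v`). For real `A ≥ 0` and `T > 0` consider the absolutely convergent
sum

`G_A(T) = (4πT)^{-1/2} ∑_{v, k ≥ 1} t_{v,k} (log N v) (N v)^{kA} exp(-(k log N v)² / (4T))`.

(1) For every `A ≥ 0` and every finite divisor `∑ m(β) [β]` in the sector `|Im s| < Re s + A`: `L(E, s)` has a
meromorphic continuation to the sector with exactly this divisor of zeros and poles IF AND ONLY IF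

`G_A(T) = -∑_β m(β) exp((β + A)² T) + O(exp(ε T))`, `T → ∞`, for every `ε > 0`.

(2) `L(E, s)` has a meromorphic continuation to `ℂ` (the question) IF AND ONLY IF for every `A ≥ 0` (equivalently: for
arbitrarily large `A`) the sum `G_A(T)` has such an expansion with some finite divisor.

(3) In this case the divisor in the expansion of `G_A(T)` is the divisor of the zeros and poles of `L(E, s)` in the
sector.

No growth condition, no functional equation, no zero-free region, no Riemann hypothesis and no modularity is assumed.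
The earlier criterion `MP_0d9be2_nt.MeromorphicHalfPlane` (other weights, primes instead of prime powers) concerns the
half plane `Re s > 1`, to the right of the central line, and sectors with vertex `1`. The library
`Pool.Agent.V11291.GS` is the one of `MP_eea520_nt.GaussianPrimeSums`; new here is the application to the complete
`L`-series of elliptic curves over number fields, with all bad primes.
-/

set_option autoImplicit false

namespace Pool.Agent.Results.MP_0d9be2_nt.GaussianPrimePowers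

open Filter Topology Set NumberField IsDedekindDomain

variable {K : Type} [Field K] [NumberField K]

/-- The norm of `v`. -/
noncomputable def nrm (v : HeightOneSpectrum (𝓞 K)) : ℕ := Ideal.absNorm v.asIdeal

/-- The local polynomial `P_v`. -/
noncomputable def locPoly (E : WeierstrassCurve K) (v : HeightOneSpectrum (𝓞 K)) : Polynomial ℤ :=
  (E.baseChange (v.adicCompletion K)).localPolynomial (v.adicCompletionIntegers K)

/-- The power sums `t_{v,k}` of the reciprocal roots of `P_v`, by Newton's recursion. -/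
noncomputable def tr (E : WeierstrassCurve K) (v : HeightOneSpectrum (𝓞 K)) : ℕ → ℤ
  | 0 => 2
  | 1 => -(locPoly E v).coeff 1
  | (k + 2) => -(locPoly E v).coeff 1 * tr E v (k + 1) - (locPoly E v).coeff 2 * tr E v k

/-- The sector `|Im s| < Re s + A`. -/
def Sector (A : ℝ) : Set ℂ := {s | |s.im| < s.re + A}

/-- The Gaussian sum `G_A(T)`. -/
noncomputable def gauss (E : WeierstrassCurve K) (A T : ℝ) : ℝ :=
  (Real.sqrt (4 * Real.pi * T))⁻¹ * ∑' q : HeightOneSpectrum (𝓞 K) × ℕ, (tr E q.1 (q.2 + 1) : ℝ) *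
    (Real.log (nrm q.1) * (nrm q.1 : ℝ) ^ (A * (q.2 + 1)) *
      Real.exp (-(((q.2 + 1) * Real.log (nrm q.1)) ^ 2 / (4 * T))))

/-- The divisor `∑ m(β) [β]`, `β ∈ Z`, lies in the sector, and in `Re s ≤ σ`. -/
def InSector (σ A : ℝ) (Z : Finset ℂ) : Prop := ∀ β ∈ Z, β ∈ Sector A ∧ β.re ≤ σ

/-- `G_A(T) = -∑_β m(β) exp((β + A)² T) + O(exp(ε T))` for every `ε > 0`. -/
def Expansion (E : WeierstrassCurve K) (A : ℝ) (Z : Finset ℂ) (m : ℂ → ℤ) : Prop :=
  ∀ ε : ℝ, 0 < ε → ∃ C : ℝ, ∀ᶠ T : ℝ in atTop,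
    ‖(gauss E A T : ℂ) + ∑ β ∈ Z, (m β : ℂ) * Complex.exp ((β + A) ^ 2 * T)‖ ≤ C * Real.exp (ε * T)

/-- `L(E, s)` has a meromorphic continuation to the union of the half plane `Re s > σ` and the sector with the divisor
`∑ m(β) [β]`, `β ∈ Z`: it is `H(s) ∏_{β ∈ Z} (s - β)^{m(β)}` with a function `H`, holomorphic and without zeros in the
union. -/
def ContinuesWith (E : WeierstrassCurve K) (σ A : ℝ) (Z : Finset ℂ) (m : ℂ → ℤ) : Prop :=
  ∃ H : ℂ → ℂ, (∀ s : ℂ, s ∈ Sector A ∨ σ < s.re → DifferentiableAt ℂ H s ∧ H s ≠ 0) ∧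
    ∀ s : ℂ, σ < s.re → E.LSeries s = H s * ∏ β ∈ Z, (s - β) ^ m β

/-- `f` is a meromorphic continuation of `L(E, s)` to `ℂ`. -/
def IsContinuation (E : WeierstrassCurve K) (f : ℂ → ℂ) : Prop :=
  MeromorphicOn f univ ∧ ∃ σ : ℝ, ∀ s : ℂ, σ < s.re → f s = E.LSeries s

open Pool.Agent.V1167.GL Pool.Agent.V11291.GS

lemma tr_eq (E : WeierstrassCurve K) (v : HeightOneSpectrum (𝓞 K)) (k : ℕ) :
    tr E v k = pws (Pool.Agent.W189.NF.aV E v) (Pool.Agent.W189.NF.eV E v) k := by
  have h1 : (locPoly E v).coeff 1 = -Pool.Agent.W189.NF.aV E v := by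
    unfold locPoly Pool.Agent.W189.NF.aV
    rw [Pool.Agent.W189.NF.localPolynomial_eq, Polynomial.coeff_add, Polynomial.coeff_sub,
      Polynomial.coeff_C_mul, Polynomial.coeff_C_mul, Polynomial.coeff_X_pow, Polynomial.coeff_X,
      Polynomial.coeff_one]
    norm_num
  have h2 : (locPoly E v).coeff 2 = Pool.Agent.W189.NF.eV E v := by
    unfold locPoly Pool.Agent.W189.NF.eV
    rw [Pool.Agent.W189.NF.localPolynomial_eq, Polynomial.coeff_add, Polynomial.coeff_sub,
      Polynomial.coeff_C_mul, Polynomial.coeff_C_mul, Polynomial.coeff_X_pow, Polynomial.coeff_X,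
      Polynomial.coeff_one]
    norm_num
  induction k using Nat.twoStepInduction with
  | zero => simp [tr, pws]
  | one => simp [tr, pws, h1]
  | more k e1 e2 => rw [tr, pws, e1, e2, h1, h2, neg_neg]

lemma gauss_eq (E : WeierstrassCurve K) (A T : ℝ) : gauss E A T = gp E A T := by
  unfold gauss gp
  simp only [tr_eq]
  rfl

lemma expansion_iff (E : WeierstrassCurve K) (A : ℝ) (Z : Finset ℂ) (m : ℂ → ℤ) :
    Expansion E A Z m ↔ Ex (xx fun v : HeightOneSpectrum (𝓞 K) => nn v) (cc (rts E)) A Z m := by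
  unfold Expansion Ex
  simp only [gauss_eq, gp_eq]

/-- **Theorem.** Let `E` be an elliptic curve over a number field `K`, and `σ₀ > 3`.

(1) For `A ≥ 0` and all finite divisors in the sector `|Im s| < Re s + A`, `Re s ≤ σ₀`: `L(E, s)` has a meromorphic
continuation to the union of the sector and `Re s > σ₀` with this divisor if and only if
`G_A(T) = -∑ m(β) exp((β + A)² T) + O(exp(ε T))` for every `ε > 0`.

(2) `L(E, s)` has a meromorphic continuation to `ℂ` if and only if for every `A ≥ 0` the sum `G_A(T)` has such an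
expansion with some finite divisor; it suffices to have this for arbitrarily large `A`.

(3) If `f` is a meromorphic continuation of `L(E, s)` to `ℂ`, then for every `A ≥ 0` the set `Z` of the zeros and
poles of `f` in the sector `|Im s| < Re s + A` is finite, contained in `Re s ≤ σ₀`, and `G_A(T)` has the expansion in
(1) with `m(β)` the order of `f` at `β`, `β ∈ Z`. -/
theorem result (E : WeierstrassCurve K) [E.IsElliptic] (σ₀ : ℝ) (hσ : 3 < σ₀) :
    (∀ A : ℝ, 0 ≤ A → ∀ (Z : Finset ℂ) (m : ℂ → ℤ), InSector σ₀ A Z →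
      (ContinuesWith E σ₀ A Z m ↔ Expansion E A Z m)) ∧
    ((∃ f : ℂ → ℂ, IsContinuation E f) ↔
      ∀ A : ℝ, 0 ≤ A → ∃ (Z : Finset ℂ) (m : ℂ → ℤ), InSector σ₀ A Z ∧ Expansion E A Z m) ∧
    ((∃ f : ℂ → ℂ, IsContinuation E f) ↔
      ∀ A₀ : ℝ, ∃ A : ℝ, A₀ ≤ A ∧ 0 ≤ A ∧
        ∃ (Z : Finset ℂ) (m : ℂ → ℤ), InSector σ₀ A Z ∧ Expansion E A Z m) ∧
    ∀ f : ℂ → ℂ, IsContinuation E f → ∀ A : ℝ, 0 ≤ A →
      ∃ Z : Finset ℂ, (∀ β : ℂ, β ∈ Z ↔ β ∈ Sector A ∧ meromorphicOrderAt f β ≠ 0) ∧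
        InSector σ₀ A Z ∧ Expansion E A Z fun β => (meromorphicOrderAt f β).untop₀ := by
  have hc := cnt (K := K)
  have P := ec_ep E hσ
  have hL : ∀ s : ℂ, σ₀ < s.re → Complex.exp (ll (xx fun v : HeightOneSpectrum (𝓞 K) => nn v)
      (cc (rts E)) s) = E.LSeries s := fun s hs => ec_L E hσ hs.le
  have hplane : ∀ f : ℂ → ℂ, IsContinuation E f → ∀ A : ℝ, 0 ≤ A →
      ∃ Z : Finset ℂ, (∀ β : ℂ, β ∈ Z ↔ β ∈ Sector A ∧ meromorphicOrderAt f β ≠ 0) ∧
        InSector σ₀ A Z ∧ Expansion E A Z fun β => (meromorphicOrderAt f β).untop₀ := by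
    rintro f ⟨h1, σ, h2⟩ A hA
    obtain ⟨Z, h3, h4, h5⟩ := P.gd.plane_ex h1 (σ' := max σ σ₀) (fun s hs => by
      rw [h2 s ((le_max_left _ _).trans_lt hs), hL s ((le_max_right _ _).trans_lt hs)]) hA
    exact ⟨Z, h3, h4, (expansion_iff E A Z _).2 h5⟩
  have hback : (∀ A₀ : ℝ, ∃ A : ℝ, A₀ ≤ A ∧ 0 ≤ A ∧
      ∃ (Z : Finset ℂ) (m : ℂ → ℤ), InSector σ₀ A Z ∧ Expansion E A Z m) →
      ∃ f : ℂ → ℂ, IsContinuation E f := by
    intro h
    obtain ⟨f, h1, h2⟩ := P.gd.plane fun A₀ => by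
      obtain ⟨A, h1, h2, Z, m, h3, h4⟩ := h A₀
      exact ⟨A, h1, h2, Z, m, h3, (expansion_iff E A Z m).1 h4⟩
    exact ⟨f, h1, σ₀, fun s hs => by rw [h2 s hs, hL s hs]⟩
  refine ⟨fun A hA Z m hZ => ?_, ⟨?_, fun h => hback fun A₀ => ?_⟩, ⟨?_, hback⟩, hplane⟩
  · rw [expansion_iff, ← P.gd.crit hA m hZ]
    constructor
    · rintro ⟨H, h1, h2⟩
      exact ⟨H, h1, fun s hs => by rw [← h2 s hs]; exact hL s hs⟩
    · rintro ⟨H, h1, h2⟩
      exact ⟨H, h1, fun s hs => by rw [← hL s hs]; exact h2 s hs⟩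
  · rintro ⟨f, hf⟩ A hA
    obtain ⟨Z, -, h2, h3⟩ := hplane f hf A hA
    exact ⟨Z, _, h2, h3⟩
  · exact ⟨max A₀ 0, le_max_left _ _, le_max_right _ _, h _ (le_max_right _ _)⟩
  · rintro ⟨f, hf⟩ A₀
    obtain ⟨Z, -, h2, h3⟩ := hplane f hf (max A₀ 0) (le_max_right _ _)
    exact ⟨max A₀ 0, le_max_left _ _, le_max_right _ _, Z, _, h2, h3⟩

end Pool.Agent.Results.MP_0d9be2_nt.GaussianPrimePowers
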