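import Pool.Agent.V11190.MC.Intr
import Pool.Agent.V11288.HS.EC

/-!
# The meromorphic continuation of `L(E, s)` and the mean square of the partial Euler products

Let `E : y² = x³ + a x + b` be an elliptic curve over a number field `K`, `a, b ∈ 𝓞_K`. For the primes `v` not
dividing `6 (4 a³ + 27 b²)` and `k ≥ 1` let `a(v, k) = N v^k + 1 - #E(𝔽_{v^k})` (so `a(v, 0) = 2`,
`a(v, 1) = a_v = N v - N_v`, `N_v` affine points modulo `v`, and `a(v, k+2) = a_v a(v, k+1) - N v a(v, k)`). The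
Euler product `L(E, s)` over these primes converges for `Re s > 3/2`; the Euler factors at the finitely many
other primes have neither zeros nor poles for `Re s ≥ 1`. For general `K` no continuation of `L(E, s)` is
known, and nothing is assumed about it here, nor about modularity.

Let `1 ≤ σ < 3/2` and let

`log P_σ(Y) = ∑_{N v^k ≤ Y} a(v, k) / (k N v^{kσ})`

be the logarithm of the partial Euler product at the point `σ` over the finite fields with at most `Y`
elements. Let `D = ∑ m(w) [w]` be any finite divisor in the strip `σ < Re w ≤ 3/2` which is symmetric about the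
real axis (with positive and negative multiplicities `m(w)`), and `Ein z = ∑_{n ≥ 1} z^n/(n n!)`, the integral
of `(e^t - 1)/t` from `0` to `z`. It is shown for all real `r`, all `A > 0` and all `C ≥ 0` that

`∫_1^∞ (log P_σ(Y) + ∑_w m(w) Ein((w - σ) log Y) + r (log log Y + γ) - log A)² dY/Y ≤ C`

IF AND ONLY IF `L(E, s)` has a MEROMORPHIC continuation `F` to the half plane `Re s > σ`, with the divisor `D`
there (`F` has a zero of order `m(w)`, or a pole of order `-m(w)`, at the points `w` of `D` and no other zeros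
and poles), such that for the logarithm `ℓ` of `F(s) ∏_w ((s - σ)/(s - w))^{m(w)}`

`∫_{Re s = σ + x} |ℓ(s) - r log (s - σ) - log A|² / |s - σ|² |ds| ≤ 2π C` for all `x > 0`.

In this case `|ℓ(s) - r log (s - σ) - log A|² ≤ C |s - σ|² / (2 Re (s - σ))` for all `s` with `Re s > σ`.

So the existence of a meromorphic continuation of `L(E, s)` to `Re s > σ` with finitely many zeros and poles
(and with this growth, for example to the central line, `σ = 1`) is a property of the numbers of points of `E`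
over the finite fields, and the zeros and the poles are the exponents of an asymptotic expansion, in the mean
square, of the sums `log P_σ(Y)`: a pole of order `n` at a real point `w` contributes
`n Ein((w - σ) log Y) ∼ n Y^{w - σ} / ((w - σ) log Y)`. For `D = 0` this is a criterion for a holomorphic
continuation without zeros.

Proof. The function `Ein(w u)` has the Laplace transform `-log(1 - w/s)/s` and `γ + log u` has the Laplace
transform `-log s/s`; so the logarithm of `F(s) ∏ ((s - σ)/(s - w))^{m(w)}` divided by `s - σ`, minus the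
singular term, is the Laplace transform of the deviation, and the theorem of Paley and Wiener applies. It
is extended from the half plane of absolute convergence by the identity theorem
(`Pool/Agent/V11190/MC`; the case `D = 0` is due to helper288, `Pool/Agent/V11288/HS`).
-/

set_option autoImplicit false

namespace Pool.Agent.Results.MP_0d9be2_nt.MeromorphicCriterion

open Filter Topology MeasureTheory Set NumberField IsDedekindDomain

variable {K : Type} [Field K] [NumberField K]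

/-- The norm of `v`. -/
noncomputable def nrm (v : HeightOneSpectrum (𝓞 K)) : ℕ := Ideal.absNorm v.asIdeal

/-- `v` does not divide `6 (4 a³ + 27 b²)`. -/
def Good (a b : 𝓞 K) (v : HeightOneSpectrum (𝓞 K)) : Prop :=
  6 * (4 * a ^ 3 + 27 * b ^ 2) ∉ v.asIdeal

/-- The number of affine points of `y² = x³ + a x + b` modulo `v`. -/
noncomputable def pts (a b : 𝓞 K) (v : HeightOneSpectrum (𝓞 K)) : ℕ :=
  Nat.card {P : (𝓞 K ⧸ v.asIdeal) × (𝓞 K ⧸ v.asIdeal) //
    P.2 ^ 2 = P.1 ^ 3 + Ideal.Quotient.mk v.asIdeal a * P.1 + Ideal.Quotient.mk v.asIdeal b}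

/-- The Euler factor `(1 - a_v (N v)^{-s} + (N v)^{1 - 2s})⁻¹`, `a_v = N v - N_v`. -/
noncomputable def factor (a b : 𝓞 K) (v : HeightOneSpectrum (𝓞 K)) (s : ℂ) : ℂ :=
  (1 - ((nrm v : ℂ) - pts a b v) * (nrm v : ℂ) ^ (-s) + (nrm v : ℂ) ^ (1 - 2 * s))⁻¹

/-- `a(v, k) = N v^k + 1 - #E(𝔽_{v^k})`, the sum of the `k`-th powers of the eigenvalues of Frobenius. -/
noncomputable def trace (a b : 𝓞 K) (v : HeightOneSpectrum (𝓞 K)) : ℕ → ℝ
  | 0 => 2
  | 1 => (nrm v : ℝ) - pts a b v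
  | k + 2 => ((nrm v : ℝ) - pts a b v) * trace a b v (k + 1) - nrm v * trace a b v k

/-- `log P_σ(Y)`: the sum of `a(v, k) / (k (N v)^(k σ))` over all good primes `v` and `k ≥ 1` (here
`k = v.2 + 1`) with `(N v)^k ≤ Y`. -/
noncomputable def logP (a b : 𝓞 K) (σ Y : ℝ) : ℝ :=
  ∑ᶠ (v : {v // Good a b v} × ℕ) (_ : (nrm v.1.1 : ℝ) ^ (v.2 + 1) ≤ Y),
    trace a b v.1.1 (v.2 + 1) / (((v.2 : ℝ) + 1) * (nrm v.1.1 : ℝ) ^ (((v.2 + 1 : ℕ) : ℝ) * σ))

/-- `Ein z = ∑_{n ≥ 1} zⁿ / (n n!)`, the integral of `(e^t - 1)/t` from `0` to `z`. -/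
noncomputable def Ein (z : ℂ) : ℂ :=
  ∑' n : ℕ, z ^ (n + 1) / (((n : ℂ) + 1) * ((n + 1).factorial : ℂ))

/-- The finite divisor `∑_{w ∈ D} m(w) [w]` lies in the strip `σ < Re w ≤ 3/2` and is symmetric about the real
axis. -/
structure IsDivisor (σ : ℝ) (D : Finset ℂ) (m : ℂ → ℤ) : Prop where
  strip : ∀ w ∈ D, σ < w.re ∧ w.re ≤ 3 / 2
  symm : ∀ w ∈ D, starRingEnd ℂ w ∈ D ∧ m (starRingEnd ℂ w) = m w

/-- `∫_1^∞ (log P_σ(Y) + ∑_w m(w) Ein((w - σ) log Y) + r (γ + log log Y) - log A)² dY/Y ∈ [0, ∞]`. (The sum over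
`D` is real.) -/
noncomputable def meanSquare (a b : 𝓞 K) (σ : ℝ) (D : Finset ℂ) (m : ℂ → ℤ) (r A : ℝ) : ENNReal :=
  ∫⁻ Y in Ioi (1 : ℝ), ENNReal.ofReal
    ((logP a b σ Y + ∑ w ∈ D, (m w : ℝ) * (Ein ((w - σ) * (Real.log Y : ℝ))).re +
      r * (Real.eulerMascheroniConstant + Real.log (Real.log Y)) - Real.log A) ^ 2 / Y)

/-- `F` is a meromorphic continuation of `L(E, s)` to the half plane `Re s > σ` with the divisor `∑ m(w) [w]`:
the order of `F` at `s` (positive for zeros, negative for poles) is `m(s)` for `s ∈ D` and `0` for `s ∉ D`. -/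
structure IsContinuation (a b : 𝓞 K) (σ : ℝ) (D : Finset ℂ) (m : ℂ → ℤ) (F : ℂ → ℂ) : Prop where
  mero : ∀ s : ℂ, σ < s.re → MeromorphicAt F s ∧
    meromorphicOrderAt F s = ((if s ∈ D then m s else 0 : ℤ) : WithTop ℤ)
  prod : ∀ s : ℂ, 3 / 2 < s.re → HasProd (fun v : {v // Good a b v} => factor a b v.1 s) (F s)

/-- `ℓ` is holomorphic for `Re s > σ` and `F = exp ℓ ∏_{w ∈ D} ((s - w)/(s - σ))^{m(w)}` (as meromorphic
functions, that is in a punctured neighbourhood of every point). -/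
def IsLog (σ : ℝ) (D : Finset ℂ) (m : ℂ → ℤ) (F ℓ : ℂ → ℂ) : Prop :=
  (∀ s : ℂ, σ < s.re → DifferentiableAt ℂ ℓ s) ∧
  ∀ s : ℂ, σ < s.re → ∀ᶠ z in 𝓝[≠] s,
    F z = Complex.exp (ℓ z) * ∏ w ∈ D, ((z - w) / (z - σ)) ^ m w

/-- `∫ |ℓ(s) - r log (s - σ) - log A|² / |s - σ|² dt` over the line `s = σ + x + t √-1`. -/
noncomputable def vertical (σ : ℝ) (ℓ : ℂ → ℂ) (r A x : ℝ) : ENNReal :=
  ∫⁻ t : ℝ, ENNReal.ofReal (‖(ℓ (σ + x + t * Complex.I) - r * Complex.log (x + t * Complex.I) -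
    Real.log A) / (x + t * Complex.I)‖ ^ 2)

open Pool.Agent.TH942.ES
open Pool.Agent.V11288
open Pool.Agent.V11190
open Pool.Agent.H921R2.TatePole (nm two_le_nm)

theorem nm_pos (v : HeightOneSpectrum (𝓞 K)) : (0 : ℝ) < nm v := by
  have := two_le_nm v
  exact_mod_cast (by omega : 0 < nm v)

theorem trace_eq (a b : 𝓞 K) (v : {v // GoodV a b v}) (j : ℕ) (s : ℂ) :
    (∑ i, zv (fun v : {v // GoodV a b v} => nm v.1) (alV a b) v i ^ j) *
      xv (fun v : {v // GoodV a b v} => nm v.1) v ((j : ℂ) * s) =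
    ((trace a b v.1 j : ℝ) : ℂ) / ((nm v.1 : ℕ) : ℂ) ^ ((j : ℂ) * (((1 : ℝ) : ℂ) + s)) := by
  have hn : (0 : ℝ) < nm v.1 := nm_pos v.1
  have h1 := HS.trace_of (N := fun v : {v // GoodV a b v} => nm v.1) (α := alV a b) (v := v) hn 1 j s
  rw [h1]
  congr 1
  have h2 : (((nm v.1 : ℝ) ^ ((1 : ℝ) - 1 / 2) : ℝ) : ℂ) = ((√(nm v.1 : ℝ) : ℝ) : ℂ) := by
    rw [Real.sqrt_eq_rpow]
    norm_num
  have hs := sqrt_nm_pos v.1
  have h3 : 2 * trV a b v.1 * √(nm v.1 : ℝ) = (nm v.1 : ℝ) - ptsV a b v.1 := by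
    unfold trV
    field_simp
  have h4 := HS.rt_trace (trV_abs v.2) hn.le (T := trace a b v.1) rfl
    (by rw [h3]; rfl) (fun j => by rw [h3]; rfl) j
  rw [← h4]
  refine Finset.sum_congr rfl fun i _ => ?_
  rw [h2]
  rfl

/-- the traces are real -/
theorem real_pow (a b : 𝓞 K) (v : {v // GoodV a b v}) (k : ℕ) :
    (∑ i, zv (fun v : {v // GoodV a b v} => nm v.1) (alV a b) v i ^ k).im = 0 := by
  have h1 := trace_eq a b v k 0
  have h2 : xv (fun v : {v // GoodV a b v} => nm v.1) v ((k : ℂ) * 0) = 1 := by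
    unfold xv
    simp
  rw [h2, mul_one] at h1
  have h3 : ((nm v.1 : ℕ) : ℂ) ^ ((k : ℂ) * (((1 : ℝ) : ℂ) + 0)) = (((nm v.1 : ℕ) ^ k : ℕ) : ℂ) := by
    have e : (k : ℂ) * (((1 : ℝ) : ℂ) + 0) = (k : ℂ) := by
      push_cast
      ring
    rw [e, Complex.cpow_natCast]
    push_cast
    rfl
  rw [h1, h3, ← Complex.ofReal_natCast, ← Complex.ofReal_div, Complex.ofReal_im]

/-- the terms of `log P_σ(Y)` -/
theorem term_eq (a b : 𝓞 K) (σ : ℝ) (p : {v // GoodV a b v} × ℕ) :
    cP (fun v : {v // GoodV a b v} => nm v.1) (HS.shr (fun v : {v // GoodV a b v} => nm v.1)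
      (alV a b) (σ - 1)) p =
    trace a b p.1.1 (p.2 + 1) / (((p.2 : ℝ) + 1) * (nm p.1.1 : ℝ) ^ (((p.2 + 1 : ℕ) : ℝ) * σ)) := by
  have hn : (0 : ℝ) < nm p.1.1 := nm_pos p.1.1
  unfold cP
  have h1 := HS.shr_term (N := fun v : {v // GoodV a b v} => nm v.1) (α := alV a b) (v := p.1) hn
    (σ - 1) 0 (p.2 + 1)
  rw [trace_eq] at h1
  have h2 : xv (fun v : {v // GoodV a b v} => nm v.1) p.1 (((p.2 + 1 : ℕ) : ℂ) *
      (((0 : ℝ) : ℂ) * Complex.I)) = 1 := by
    unfold xv
    simp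
  have h3 : ((nm p.1.1 : ℕ) : ℂ) ^ (((p.2 + 1 : ℕ) : ℂ) *
      (((1 : ℝ) : ℂ) + (((σ - 1 : ℝ) : ℂ) + ((0 : ℝ) : ℂ) * Complex.I))) =
      (((nm p.1.1 : ℝ) ^ (((p.2 + 1 : ℕ) : ℝ) * σ) : ℝ) : ℂ) := by
    rw [Complex.ofReal_cpow hn.le]
    congr 1
    push_cast
    ring
  rw [h2, mul_one, h3, ← Complex.ofReal_div] at h1
  rw [h1, Complex.ofReal_re, div_div]
  ring

theorem prod_eq (a b : 𝓞 K) (s : ℂ) :
    (fun v : {v // Good a b v} => factor a b v.1 s) = fun v : {v // GoodV a b v} =>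
      ∏ i, (1 - zv (fun v : {v // GoodV a b v} => nm v.1) (alV a b) v i *
        xv (fun v : {v // GoodV a b v} => nm v.1) v (s - 1))⁻¹ := by
  funext v
  rw [curve_factor, add_sub_cancel]
  rfl

theorem hasProd_iff (a b : 𝓞 K) {s : ℂ} (hs : 3 / 2 < s.re) (y : ℂ) :
    HasProd (fun v : {v // Good a b v} => factor a b v.1 s) y ↔
      y = Pool.Agent.TH942.ES.LE (fun v : {v // GoodV a b v} => nm v.1) (alV a b) (s - 1) := by
  have h1 : 1 / 2 < (s - 1).re := by
    rw [Complex.sub_re, Complex.one_re]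
    linarith
  have h2 := (curve_sys a b).hasProd h1
  rw [prod_eq]
  constructor
  · intro h
    exact h.tprod_eq.symm
  · rintro rfl
    unfold Pool.Agent.TH942.ES.LE
    rw [h2.tprod_eq]
    exact h2

/-- the product over the divisor in the coordinate `s - 1` -/
theorem qw_shift (D : Finset ℂ) (m : ℂ → ℤ) (σ : ℝ) (s : ℂ) :
    MC.qw (MC.shW D 1) (fun w => m (w + (1 : ℝ))) (σ - 1) (s - 1) =
      ∏ w ∈ D, ((s - w) / (s - σ)) ^ m w := by
  unfold MC.qw MC.shW
  rw [Finset.prod_image fun a _ b _ h => MC.shW_inj 1 h]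
  refine Finset.prod_congr rfl fun w _ => ?_
  beta_reduce
  rw [sub_add_cancel]
  congr 1
  push_cast
  congr 1 <;> ring

theorem sum_shift (D : Finset ℂ) (m : ℂ → ℤ) (σ Y : ℝ) :
    ∑ w ∈ MC.shW D 1, ((fun w => m (w + (1 : ℝ))) w : ℝ) *
      (HS.Ein ((w - ((σ - 1 : ℝ) : ℂ)) * (Real.log Y : ℝ))).re =
      ∑ w ∈ D, (m w : ℝ) * (Ein ((w - σ) * (Real.log Y : ℝ))).re := by
  unfold MC.shW
  rw [Finset.sum_image fun a _ b _ h => MC.shW_inj 1 h]
  refine Finset.sum_congr rfl fun w _ => ?_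
  beta_reduce
  rw [sub_add_cancel]
  have e : w - ((1 : ℝ) : ℂ) - ((σ - 1 : ℝ) : ℂ) = w - σ := by
    push_cast
    ring
  rw [e]
  rfl

/-- **Theorem.** Let `E : y² = x³ + a x + b` be an elliptic curve over the number field `K`, `a, b ∈ 𝓞_K`, let
`1 ≤ σ < 3/2` and let `∑_{w ∈ D} m(w) [w]` be a finite divisor in the strip `σ < Re w ≤ 3/2`, symmetric about the
real axis.

(1) For all real `r`, all `A > 0` and all `C ≥ 0`: the integral
`∫_1^∞ (log P_σ(Y) + ∑_w m(w) Ein((w - σ) log Y) + r (γ + log log Y) - log A)² dY/Y` is at most `C` if and only if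
`L(E, s)` has a meromorphic continuation `F` to `Re s > σ` with the divisor `∑ m(w) [w]`, with
`∫_{Re s = σ + x} |ℓ(s) - r log (s - σ) - log A|² / |s - σ|² |ds| ≤ 2π C` for all `x > 0` for a logarithm `ℓ` of
`F(s) ∏ ((s - σ)/(s - w))^{m(w)}`.

(2) In this case `|ℓ(s) - r log (s - σ) - log A|² ≤ C |s - σ|² / (2 (Re s - σ))` for `Re s > σ`.

(3) For every meromorphic continuation `F` of `L(E, s)` to `Re s > σ` with the divisor `∑ m(w) [w]` there is such
a logarithm `ℓ`. -/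
theorem result (K : Type) [Field K] [NumberField K] (a b : 𝓞 K) (σ : ℝ) (hσ : 1 ≤ σ) (hσ' : σ < 3 / 2)
    (D : Finset ℂ) (m : ℂ → ℤ) (hD : IsDivisor σ D m) :
    (∀ r A C : ℝ, 0 < A → 0 ≤ C →
      (meanSquare a b σ D m r A ≤ ENNReal.ofReal C ↔ ∃ F ℓ : ℂ → ℂ,
        IsContinuation a b σ D m F ∧ IsLog σ D m F ℓ ∧
        ∀ x : ℝ, 0 < x → vertical σ ℓ r A x ≤ ENNReal.ofReal (2 * Real.pi * C)) ∧
      (meanSquare a b σ D m r A ≤ ENNReal.ofReal C → ∃ F ℓ : ℂ → ℂ,
        IsContinuation a b σ D m F ∧ IsLog σ D m F ℓ ∧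
        ∀ s : ℂ, σ < s.re → ‖ℓ s - r * Complex.log (s - σ) - Real.log A‖ ^ 2 ≤
          C * ‖s - σ‖ ^ 2 / (2 * (s.re - σ)))) ∧
    ∀ F : ℂ → ℂ, IsContinuation a b σ D m F → ∃ ℓ : ℂ → ℂ, IsLog σ D m F ℓ := by
  refine ⟨fun r A C _ hC => ?_, fun F hF => MC.exists_mlog hF.mero⟩
  have E := curve_sys a b
  have hreal := real_pow a b
  have hS : MC.Sym (MC.shW D 1) (fun w => m (w + (1 : ℝ))) := MC.sym_shW (fun w hw => hD.symm w hw) 1
  have hW : ∀ w ∈ MC.shW D 1, w.re ≤ 1 / 2 := by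
    intro w hw
    obtain ⟨w', hw', rfl⟩ := Finset.mem_image.1 hw
    rw [Complex.sub_re, Complex.ofReal_re]
    linarith [(hD.strip w' hw').2]
  obtain ⟨h1, h2⟩ := MC.mero_shift E hreal hS (δ := σ - 1) (by linarith) (by linarith) hW r
    (Real.log A) hC
  have hms : ∫⁻ Y in Ioi (1 : ℝ), ENNReal.ofReal (MC.Ds (fun v : {v // GoodV a b v} => nm v.1)
      (alV a b) (MC.shW D 1) (fun w => m (w + (1 : ℝ))) (σ - 1) r (Real.log A) Y ^ 2 / Y) =
      meanSquare a b σ D m r A := by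
    unfold meanSquare MC.Ds
    refine lintegral_congr fun Y => ?_
    rw [sum_shift]
    unfold Pool.Agent.TH270.MS.Pl logP
    simp only [term_eq]
    rfl
  rw [hms] at h1 h2
  have hre : ∀ s : ℂ, (s - (1 : ℂ)).re = s.re - 1 := fun s => by
    rw [Complex.sub_re, Complex.one_re]
  have hre' : ∀ s : ℂ, (s + (1 : ℂ)).re = s.re + 1 := fun s => by
    rw [Complex.add_re, Complex.one_re]
  -- from the coordinate `s - 1` to `s`
  have tr : ∀ ℓ : ℂ → ℂ, (∀ s : ℂ, σ - 1 < s.re → DifferentiableAt ℂ ℓ s) →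
      (∀ s : ℂ, 1 / 2 < s.re → Complex.exp (ℓ s) *
        MC.qw (MC.shW D 1) (fun w => m (w + (1 : ℝ))) (σ - 1) s =
        Pool.Agent.TH942.ES.LE (fun v : {v // GoodV a b v} => nm v.1) (alV a b) s) →
      IsContinuation a b σ D m (fun s => Complex.exp (ℓ (s - 1)) * MC.qw D m σ s) ∧
      IsLog σ D m (fun s => Complex.exp (ℓ (s - 1)) * MC.qw D m σ s) (fun s => ℓ (s - 1)) := by
    intro ℓ a1 a2
    have b1 : ∀ s : ℂ, σ < s.re → DifferentiableAt ℂ (fun s => ℓ (s - 1)) s := by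
      intro s hs
      exact (a1 (s - 1) (by rw [hre]; linarith)).comp s (by fun_prop)
    refine ⟨⟨fun s hs => MC.order_shift b1 hs, fun s hs => ?_⟩,
      ⟨b1, fun s _ => Eventually.of_forall fun z => rfl⟩⟩
    rw [hasProd_iff a b hs, ← a2 (s - 1) (by rw [hre]; linarith), qw_shift]
    rfl
  refine ⟨h1.trans ⟨?_, ?_⟩, fun hm => ?_⟩
  · rintro ⟨ℓ, a1, a2, a3⟩
    obtain ⟨b1, b2⟩ := tr ℓ a1 a2
    refine ⟨_, _, b1, b2, fun x hx => ?_⟩
    refine le_trans (le_of_eq ?_) (a3 x hx)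
    unfold vertical
    refine lintegral_congr fun t => ?_
    have e : (σ : ℂ) + x + t * Complex.I - 1 = ((σ - 1 : ℝ) : ℂ) + x + t * Complex.I := by
      push_cast
      ring
    beta_reduce
    rw [e]
  · rintro ⟨F, ℓ, b1, ⟨b2, b3⟩, b4⟩
    refine ⟨fun s => ℓ (s + 1), fun s hs => ?_, fun s hs => ?_, fun x hx => ?_⟩
    · exact (b2 (s + 1) (by rw [hre']; linarith)).comp s (by fun_prop)
    · -- both sides are continuous
      have hs3 : 3 / 2 < (s + 1).re := by rw [hre']; linarith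
      have hUo : IsOpen {z : ℂ | (3 / 2 : ℝ) < z.re} :=
        isOpen_lt continuous_const Complex.continuous_re
      have c1 : ∀ᶠ z in 𝓝[≠] (s + 1), Complex.exp (ℓ z) * MC.qw D m σ z =
          Pool.Agent.TH942.ES.LE (fun v : {v // GoodV a b v} => nm v.1) (alV a b) (z - 1) := by
        filter_upwards [b3 (s + 1) (by linarith), mem_nhdsWithin_of_mem_nhds (hUo.mem_nhds hs3)]
          with z hz1 hz2
        rw [← (hasProd_iff a b hz2 _).1 (b1.prod z hz2), hz1]
        rfl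
      have c2 : ContinuousAt (fun z : ℂ => Complex.exp (ℓ z) * MC.qw D m σ z) (s + 1) := by
        have d1 := (b2 (s + 1) (by linarith)).cexp
        have hz2 : s + 1 - (σ : ℂ) ≠ 0 := sub_ne_zero.2 (MC.ne_of_re (by linarith))
        have d2 : DifferentiableAt ℂ (MC.qw D m σ) (s + 1) := by
          unfold MC.qw
          refine DifferentiableAt.fun_finsetProd fun w hw => ?_
          have h1 : DifferentiableAt ℂ (fun z : ℂ => (z - w) / (z - σ)) (s + 1) :=
            ((differentiableAt_id.sub_const _).div (differentiableAt_id.sub_const _) hz2)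
          refine h1.zpow (Or.inl (div_ne_zero ?_ hz2))
          rw [sub_ne_zero]
          rintro rfl
          have := (hD.strip _ hw).2
          linarith
        exact (d1.mul d2).continuousAt
      have c3 : ContinuousAt (fun z : ℂ => Pool.Agent.TH942.ES.LE
          (fun v : {v // GoodV a b v} => nm v.1) (alV a b) (z - 1)) (s + 1) := by
        have d1 := MC.LE_diff E hreal (s := s + 1 - 1) (by rw [add_sub_cancel_right]; exact hs)
        exact (DifferentiableAt.comp (f := fun z : ℂ => z - 1) (s + 1) d1 (by fun_prop)).continuousAt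
      have c4 := tendsto_nhds_unique_of_eventuallyEq
        (c2.tendsto.mono_left nhdsWithin_le_nhds) (c3.tendsto.mono_left nhdsWithin_le_nhds) c1
      rw [add_sub_cancel_right] at c4
      rw [← c4]
      have c5 := qw_shift D m σ (s + 1)
      rw [add_sub_cancel_right] at c5
      rw [c5]
      rfl
    · refine le_trans (le_of_eq ?_) (b4 x hx)
      unfold vertical
      refine lintegral_congr fun t => ?_
      have e : ((σ - 1 : ℝ) : ℂ) + x + t * Complex.I + 1 = σ + x + t * Complex.I := by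
        push_cast
        ring
      beta_reduce
      rw [e]
  · obtain ⟨ℓ, a1, a2, a3⟩ := h2 hm
    obtain ⟨b1, b2⟩ := tr ℓ a1 a2
    refine ⟨_, _, b1, b2, fun s hs => ?_⟩
    have h4 := a3 (s - 1) (by rw [hre]; linarith)
    rw [hre] at h4
    have e : s - 1 - (((σ - 1 : ℝ)) : ℂ) = s - σ := by
      push_cast
      ring
    rw [e] at h4
    refine h4.trans (le_of_eq ?_)
    congr 2
    ring

end Pool.Agent.Results.MP_0d9be2_nt.MeromorphicCriterion
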