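import Pool.Agent.V11291.ME.Glue
import Pool.Agent.TH942.ES.NF

/-!
# The meromorphic continuation of the L-series of an elliptic curve over a number field to `Re s > 1`

Let `E : y² = x³ + a x + b` be an elliptic curve over a number field `K`, `a, b ∈ 𝓞_K`. For the primes `v`
which do not divide `6 (4 a³ + 27 b²)` let `N v` be the norm and `N_v + 1` the number of points modulo `v`
(`N_v` affine points). The Euler product `L(E, s)` over these primes converges for `Re s > 3/2`. For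
general `K` a meromorphic continuation beyond this half plane is not known. Neither the Euler factors at
the finitely many other primes nor their inverses have poles for `Re s ≥ 1`, so they are irrelevant here.

With the weights `w_ρ(u) = (1/2πi) ∫ exp(z - u z^{1/ρ}) dz/z`, `ρ > 1`, consider the means

`S_ρ(Y) = ∑_v w_ρ(log N v / log Y) log ((N_v + 1) / N v)`, `N v ≤ exp ((log Y)^{ρ'})`, `ρ' > ρ`,

and the entire function `Ein(z) = ∑_{n ≥ 1} z^n / (n n!)` (so `Ein(z) ~ e^z / z` for large `Re z`).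

(1) For every `ρ > 1` and every finite divisor `∑ m(β) [β]` in the sector `|arg (s - 1)| < π/(2ρ)`,
`Re β ≤ 3/2`: `L(E, s)` has a meromorphic continuation to the union of the half plane `Re s > 3/2` and of
the sector with exactly this divisor of zeros and poles IF AND ONLY IF

`S_ρ(Y) = ∑_β m(β) Ein((β - 1)^ρ (log Y)^ρ) + O(exp(ε (log Y)^ρ))` for every `ε > 0`.

(2) `L(E, s)` has a meromorphic continuation to the half plane `Re s > 1` with finitely many zeros and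
poles in each sector `|arg (s - 1)| < θ < π/2` IF AND ONLY IF for every `ρ > 1` the means `S_ρ(Y)` have an
expansion of this form, with some finite divisor. The Riemann hypothesis is not assumed and no zero-free
region: the zeros and poles off the central line are the terms of the expansion.

(3) If `L(E, s)` has a meromorphic continuation to `ℂ` (the question), the means have such expansions for
all `ρ > 1`.

Nothing is assumed about modularity. The library `Pool.Agent.V11291.ME` generalises the Tauberian theorem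
of the library `Pool.Agent.TH942` (for continuations without zeros and poles).
-/

set_option autoImplicit false

namespace Pool.Agent.Results.MP_0d9be2_nt.MeromorphicHalfPlane

open Filter Topology Set NumberField IsDedekindDomain

variable {K : Type} [Field K] [NumberField K]

/-- The norm of `v`. -/
noncomputable def nrm (v : HeightOneSpectrum (𝓞 K)) : ℕ := Ideal.absNorm v.asIdeal

/-- `v` does not divide `6 (4 a³ + 27 b²)`. -/
def Good (a b : 𝓞 K) (v : HeightOneSpectrum (𝓞 K)) : Prop :=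
  6 * (4 * a ^ 3 + 27 * b ^ 2) ∉ v.asIdeal

/-- The number of affine points of `y² = x³ + a x + b` modulo `v`. -/
noncomputable def pts (a b : 𝓞 K) (v : HeightOneSpectrum (𝓞 K)) : ℕ :=
  Nat.card {P : (𝓞 K ⧸ v.asIdeal) × (𝓞 K ⧸ v.asIdeal) //
    P.2 ^ 2 = P.1 ^ 3 + Ideal.Quotient.mk v.asIdeal a * P.1 + Ideal.Quotient.mk v.asIdeal b}

/-- The Euler factor `(1 - a_v (N v)^{-s} + (N v)^{1 - 2s})⁻¹`, `a_v = N v - N_v`. -/
noncomputable def factor (a b : 𝓞 K) (v : HeightOneSpectrum (𝓞 K)) (s : ℂ) : ℂ :=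
  (1 - ((nrm v : ℂ) - pts a b v) * (nrm v : ℂ) ^ (-s) + (nrm v : ℂ) ^ (1 - 2 * s))⁻¹

/-- `y` is the value at `s` of the Euler product `L(E, s)` over the `v` which do not divide
`6 (4 a³ + 27 b²)`. -/
def IsL (a b : 𝓞 K) (s y : ℂ) : Prop :=
  HasProd (fun v : {v // Good a b v} => factor a b v.1 s) y

/-- `L(E, s)` has a meromorphic continuation to the union of `U` and the half plane `Re s > 3/2` with the
divisor `∑ m(β) [β]`, `β ∈ Z`: it is `H(s) ∏_{β ∈ Z} (s - β)^{m(β)}` with a function `H`, holomorphic and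
without zeros in the union. -/
def ContinuesWith (a b : 𝓞 K) (U : Set ℂ) (Z : Finset ℂ) (m : ℂ → ℤ) : Prop :=
  ∃ H : ℂ → ℂ, (∀ s : ℂ, s ∈ U ∨ 3 / 2 < s.re → DifferentiableAt ℂ H s ∧ H s ≠ 0) ∧
    ∀ s : ℂ, 3 / 2 < s.re → IsL a b s (H s * ∏ β ∈ Z, (s - β) ^ m β)

/-- `f` is a meromorphic continuation of `L(E, s)` to `U`. -/
def IsContinuation (a b : 𝓞 K) (U : Set ℂ) (f : ℂ → ℂ) : Prop :=
  MeromorphicOn f U ∧ ∀ s : ℂ, 3 / 2 < s.re → IsL a b s (f s)

/-- The open sector `|arg (s - 1)| < π/(2ρ)` with vertex `1`. -/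
def Sector (ρ : ℝ) : Set ℂ := {s | s ≠ 1 ∧ |(s - 1).arg| < Real.pi / (2 * ρ)}

/-- `f` has only finitely many zeros and poles in each of the sectors, `ρ > 1`. -/
def FiniteInSectors (f : ℂ → ℂ) : Prop :=
  ∀ ρ : ℝ, 1 < ρ → {s : ℂ | s ∈ Sector ρ ∧ meromorphicOrderAt f s ≠ 0}.Finite

/-- The weight `w_ρ(u) = (1/2πi) ∫_{Re z = 1} exp(z - u z^{1/ρ}) dz/z`. -/
noncomputable def weight (ρ u : ℝ) : ℝ :=
  (2 * Real.pi)⁻¹ * ∫ t : ℝ, (Complex.exp ((1 + t * Complex.I) -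
    u * (1 + t * Complex.I) ^ ((ρ⁻¹ : ℝ) : ℂ)) / (1 + t * Complex.I)).re

/-- The mean `∑ w_ρ(log N v / log Y) log ((N_v + 1) / N v)` over the good primes with
`N v ≤ exp ((log Y)^{ρ'})`. -/
noncomputable def mean (a b : 𝓞 K) (ρ ρ' Y : ℝ) : ℝ :=
  ∑ᶠ (v : {v // Good a b v}) (_ : (nrm v.1 : ℝ) ≤ Real.exp (Real.log Y ^ ρ')),
    weight ρ (Real.log (nrm v.1) / Real.log Y) * Real.log (((pts a b v.1 : ℝ) + 1) / nrm v.1)

/-- The entire function `Ein(z) = ∑_{n ≥ 1} z^n / (n n!)`. -/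
noncomputable def ein (z : ℂ) : ℂ := ∑' n : ℕ, z ^ (n + 1) / ((n + 1) * (n + 1).factorial)

/-- The divisor `∑ m(β) [β]`, `β ∈ Z`, lies in the sector and to the left of `Re s = 3/2`. -/
def InSector (ρ : ℝ) (Z : Finset ℂ) : Prop := ∀ β ∈ Z, β ∈ Sector ρ ∧ β.re ≤ 3 / 2

/-- `S_ρ(Y) = ∑_β m(β) Ein((β - 1)^ρ (log Y)^ρ) + O(exp(ε (log Y)^ρ))` for every `ε > 0`. -/
def Expansion (a b : 𝓞 K) (ρ ρ' : ℝ) (Z : Finset ℂ) (m : ℂ → ℤ) : Prop :=
  ∀ ε : ℝ, 0 < ε → ∃ C : ℝ, ∀ᶠ Y : ℝ in atTop,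
    ‖(mean a b ρ ρ' Y : ℂ) - ∑ β ∈ Z, (m β : ℂ) *
      ein ((β - 1) ^ (ρ : ℂ) * ((Real.log Y ^ ρ : ℝ) : ℂ))‖ ≤ C * Real.exp (ε * Real.log Y ^ ρ)

/-- There is an expansion for some divisor. -/
def Expands (a b : 𝓞 K) (ρ ρ' : ℝ) : Prop :=
  ∃ (Z : Finset ℂ) (m : ℂ → ℤ), InSector ρ Z ∧ Expansion a b ρ ρ' Z m

open Pool.Agent.TH942.ES in
theorem mean_eq (a b : 𝓞 K) (ρ ρ' Y : ℝ) : mean a b ρ ρ' Y =
    SrE (fun v : {v // GoodV a b v} => Pool.Agent.H921R2.TatePole.nm v.1) (alV a b) ρ ρ' Y := by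
  unfold mean SrE
  refine finsum_congr fun v => finsum_congr fun _ => ?_
  rw [curve_cv]
  rfl

open Pool.Agent.TH942.ES in
theorem prod_eq (a b : 𝓞 K) (s : ℂ) :
    (fun v : {v // Good a b v} => factor a b v.1 s) = fun v : {v // GoodV a b v} =>
      ∏ i, (1 - zv (fun v : {v // GoodV a b v} => Pool.Agent.H921R2.TatePole.nm v.1) (alV a b) v i *
        xv (fun v : {v // GoodV a b v} => Pool.Agent.H921R2.TatePole.nm v.1) v (s - 1))⁻¹ := by
  funext v
  rw [curve_factor, add_sub_cancel]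
  rfl

/-- the Euler product in the shifted variable -/
noncomputable def LL (a b : 𝓞 K) (s : ℂ) : ℂ := Pool.Agent.TH942.ES.LE
  (fun v : {v // Pool.Agent.TH942.ES.GoodV a b v} => Pool.Agent.H921R2.TatePole.nm v.1)
  (Pool.Agent.TH942.ES.alV a b) s

open Pool.Agent.TH942.ES in
theorem isL_iff (a b : 𝓞 K) {s : ℂ} (hs : 3 / 2 < s.re) (y : ℂ) :
    IsL a b s y ↔ y = LL a b (s - 1) := by
  have h1 : 1 / 2 < (s - 1).re := by
    rw [Complex.sub_re, Complex.one_re]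
    linarith
  have h2 := (curve_sys a b).hasProd h1
  unfold IsL
  rw [prod_eq]
  constructor
  · intro h
    exact h.tprod_eq.symm
  · rintro rfl
    unfold LL Pool.Agent.TH942.ES.LE
    rw [h2.tprod_eq]
    exact h2

theorem sector_shift (ρ : ℝ) (s : ℂ) : s ∈ Sector ρ ↔ s - 1 ∈ Pool.Agent.TH942.SL.Sect ρ := by
  unfold Sector Pool.Agent.TH942.SL.Sect
  simp only [Set.mem_ofPred_eq, sub_ne_zero]

/-- the shifted divisor -/
noncomputable def sh (Z : Finset ℂ) : Finset ℂ := Z.map (addRightEmbedding (-1 : ℂ))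

lemma mem_sh {Z : Finset ℂ} {γ : ℂ} (h : γ ∈ sh Z) : γ + 1 ∈ Z := by
  unfold sh at h
  obtain ⟨β, hβ, rfl⟩ := Finset.mem_map.1 h
  simpa using hβ

lemma sum_sh (Z : Finset ℂ) (f : ℂ → ℂ) : ∑ γ ∈ sh Z, f γ = ∑ β ∈ Z, f (β - 1) := by
  unfold sh
  rw [Finset.sum_map]
  simp [sub_eq_add_neg]

lemma prod_sh (Z : Finset ℂ) (f : ℂ → ℂ) : ∏ γ ∈ sh Z, f γ = ∏ β ∈ Z, f (β - 1) := by
  unfold sh
  rw [Finset.prod_map]
  simp [sub_eq_add_neg]

open Pool.Agent.V11291.ME Pool.Agent.TH942.ES in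
theorem exp_iff (a b : 𝓞 K) (ρ ρ' : ℝ) (Z : Finset ℂ) (m : ℂ → ℤ) :
    Expansion a b ρ ρ' Z m ↔ Follows
      (SrE (fun v : {v // GoodV a b v} => Pool.Agent.H921R2.TatePole.nm v.1) (alV a b) ρ ρ')
      (modl (sh Z) (fun γ => m (γ + 1)) ρ) ρ := by
  unfold Expansion Follows
  have h1 : ∀ Y : ℝ, modl (sh Z) (fun γ => m (γ + 1)) ρ (Real.log Y ^ ρ) =
      ∑ β ∈ Z, (m β : ℂ) * ein ((β - 1) ^ (ρ : ℂ) * ((Real.log Y ^ ρ : ℝ) : ℂ)) := by
    intro Y
    unfold modl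
    rw [sum_sh]
    refine Finset.sum_congr rfl fun β _ => ?_
    simp only [sub_add_cancel]
    rfl
  simp only [h1, mean_eq]

open Pool.Agent.V11291.ME in
theorem crit (a b : 𝓞 K) {ρ ρ' : ℝ} (hρ : 1 < ρ) (hρ' : ρ < ρ') {Z : Finset ℂ} (hZ : InSector ρ Z)
    (m : ℂ → ℤ) : ContinuesWith a b (Sector ρ) Z m ↔ Expansion a b ρ ρ' Z m := by
  have E := Pool.Agent.TH942.ES.curve_sys a b
  have hZ' : ∀ γ ∈ sh Z, γ ∈ Pool.Agent.TH942.SL.Sect ρ ∧ γ.re ≤ 1 / 2 := by
    intro γ hγ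
    obtain ⟨h1, h2⟩ := hZ _ (mem_sh hγ)
    rw [sector_shift, add_sub_cancel_right] at h1
    rw [Complex.add_re, Complex.one_re] at h2
    exact ⟨h1, by linarith⟩
  rw [exp_iff]
  constructor
  · rintro ⟨H, h1, h2⟩
    refine exp_of_cont E hρ hρ' (fun γ hγ => (hZ' γ hγ).1) (H := fun s => H (s + 1)) (fun s hs => ?_)
      (fun s hs => ?_) (σ := 1 / 2) (fun s hs h3 => ?_)
    · have h3 : s + 1 ∈ Sector ρ := by rwa [sector_shift, add_sub_cancel_right]
      exact ((h1 (s + 1) (Or.inl h3)).1).comp s (by fun_prop)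
    · have h3 : s + 1 ∈ Sector ρ := by rwa [sector_shift, add_sub_cancel_right]
      exact (h1 (s + 1) (Or.inl h3)).2
    · have h4 : 3 / 2 < (s + 1).re := by
        rw [Complex.add_re, Complex.one_re]
        linarith
      have h5 := (isL_iff a b h4 _).1 (h2 (s + 1) h4)
      rw [add_sub_cancel_right] at h5
      change LL a b s = _
      rw [← h5, prod_sh]
      congr 1
      refine Finset.prod_congr rfl fun β _ => ?_
      simp only [sub_add_cancel]
      congr 1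
      ring
  · intro h
    obtain ⟨H, h1, h2⟩ := cont_of_exp E hρ hρ' hZ' h
    have h3 : ∀ s : ℂ, 3 / 2 < s.re → 1 / 2 < (s - 1).re := fun s hs => by
      rw [Complex.sub_re, Complex.one_re]
      linarith
    refine ⟨fun s => H (s - 1), fun s hs => ?_, fun s hs => ?_⟩
    · have h4 := h1 (s - 1) (hs.imp (sector_shift ρ s).1 (h3 s))
      exact ⟨h4.1.comp s (by fun_prop), h4.2⟩
    · rw [isL_iff a b hs]
      have h5 : LL a b (s - 1) = _ := h2 (s - 1) (h3 s hs)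
      rw [h5, prod_sh]
      congr 1
      refine Finset.prod_congr rfl fun β _ => ?_
      simp only [sub_add_cancel]
      congr 1
      ring

open Pool.Agent.V11291.ME Pool.Agent.TH942.ES in
/-- from a divisor in the shifted variable -/
theorem expands_of (a b : 𝓞 K) {ρ ρ' : ℝ} {Z' : Finset ℂ} {m' : ℂ → ℤ}
    (hZ' : ∀ γ ∈ Z', γ ∈ Pool.Agent.TH942.SL.Sect ρ ∧ γ.re ≤ 1 / 2)
    (h : Follows (SrE (fun v : {v // GoodV a b v} => Pool.Agent.H921R2.TatePole.nm v.1) (alV a b) ρ ρ')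
      (modl Z' m' ρ) ρ) : Expands a b ρ ρ' := by
  set Z : Finset ℂ := Z'.map (addRightEmbedding (1 : ℂ)) with hZ
  have hsh : sh Z = Z' := by
    ext γ
    unfold sh
    rw [hZ, Finset.map_map]
    simp [Finset.mem_map]
  refine ⟨Z, fun β => m' (β - 1), fun β hβ => ?_, ?_⟩
  · obtain ⟨γ, hγ, rfl⟩ := Finset.mem_map.1 hβ
    obtain ⟨h1, h2⟩ := hZ' γ hγ
    simp only [addRightEmbedding_apply]
    rw [sector_shift, add_sub_cancel_right, Complex.add_re, Complex.one_re]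
    exact ⟨h1, by linarith⟩
  · rw [exp_iff, hsh]
    simpa using h

open Pool.Agent.V11291.ME Pool.Agent.TH942.SL in
/-- the expansions, from a continuation in the shifted variable -/
theorem expands_of_cont (a b : 𝓞 K) {f : ℂ → ℂ} {ρ ρ' : ℝ} (hρ : 1 < ρ) (hρ' : ρ < ρ')
    (hf : MeromorphicOn f (Sect ρ))
    (hfin : {s : ℂ | s ∈ Sect ρ ∧ meromorphicOrderAt f s ≠ 0}.Finite)
    (he : ∀ s : ℂ, 1 / 2 < s.re → f s = LL a b s) : Expands a b ρ ρ' := by
  have E := Pool.Agent.TH942.ES.curve_sys a b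
  obtain ⟨H, Z, m, h1, h2, h3⟩ := extractM hρ hf hfin (L := LL a b)
    (fun s _ hs => E.LE_diff hs) (fun s _ hs => he s hs)
  exact expands_of a b h1 (exp_of_cont E hρ hρ' (fun γ hγ => (h1 γ hγ).1)
    (fun s hs => (h2 s hs).1) (fun s hs => (h2 s hs).2) (σ := 1 / 2) h3)

/-- the shifted function -/
lemma shifted {a b : 𝓞 K} {U : Set ℂ} {f : ℂ → ℂ} (h : IsContinuation a b U f) :
    (∀ s : ℂ, s + 1 ∈ U → MeromorphicAt (fun s => f (s + 1)) s) ∧
      (∀ s : ℂ, meromorphicOrderAt (fun s => f (s + 1)) s = meromorphicOrderAt f (s + 1)) ∧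
      ∀ s : ℂ, 1 / 2 < s.re → f (s + 1) = LL a b s := by
  refine ⟨fun s hs => ?_, fun s => ?_, fun s hs => ?_⟩
  · exact meromorphicAt_fun_comp_add_const_iff_meromorphicAt.2 (h.1 _ hs)
  · exact meromorphicOrderAt_fun_comp_add_const_eq_meromorphicOrderAt
  · have h4 : 3 / 2 < (s + 1).re := by
      rw [Complex.add_re, Complex.one_re]
      linarith
    have h5 := (isL_iff a b h4 _).1 (h.2 (s + 1) h4)
    rwa [add_sub_cancel_right] at h5

open Pool.Agent.V11291.ME Pool.Agent.TH942.SL in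
theorem expands_half (a b : 𝓞 K) {f : ℂ → ℂ} (h : IsContinuation a b {s | 1 < s.re} f)
    (hfin : FiniteInSectors f) {ρ ρ' : ℝ} (hρ : 1 < ρ) (hρ' : ρ < ρ') : Expands a b ρ ρ' := by
  obtain ⟨h1, h2, h3⟩ := shifted h
  refine expands_of_cont a b hρ hρ' (f := fun s => f (s + 1)) (fun s hs => h1 s ?_) ?_ h3
  · have := sect_re hρ hs
    change 1 < (s + 1).re
    rw [Complex.add_re, Complex.one_re]
    linarith
  · refine ((hfin ρ hρ).image fun s => s - 1).subset fun s hs => ⟨s + 1, ⟨?_, ?_⟩, by ring⟩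
    · rw [sector_shift, add_sub_cancel_right]
      exact hs.1
    · rw [← h2]
      exact hs.2

open Pool.Agent.V11291.ME Pool.Agent.TH942.SL in
theorem expands_plane (a b : 𝓞 K) {f : ℂ → ℂ} (h : IsContinuation a b Set.univ f)
    {ρ ρ' : ℝ} (hρ : 1 < ρ) (hρ' : ρ < ρ') : Expands a b ρ ρ' := by
  obtain ⟨h1, h2, h3⟩ := shifted h
  have E := Pool.Agent.TH942.ES.curve_sys a b
  have ho : IsOpen {z : ℂ | 1 / 2 < z.re} := isOpen_lt continuous_const Complex.continuous_re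
  refine expands_of_cont a b hρ hρ' (f := fun s => f (s + 1)) (fun s _ => h1 s (mem_univ _)) ?_ h3
  refine finiteM (fun s _ => h1 s (mem_univ _)) (fun s hs => ?_) hρ
  have h4 : (fun s => f (s + 1)) =ᶠ[𝓝[≠] s] LL a b := by
    refine Eventually.filter_mono nhdsWithin_le_nhds ?_
    filter_upwards [ho.mem_nhds hs] with z hz
    exact h3 z hz
  rw [meromorphicOrderAt_congr h4]
  exact order_zero (an_of ho (fun s hs => (E.LE_diff hs).1) hs) (E.LE_diff hs).2

open Pool.Agent.V11291.ME Pool.Agent.TH942.SL in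
theorem half_of_expands (a b : 𝓞 K)
    (h : ∀ ρ : ℝ, 1 < ρ → ∃ ρ' : ℝ, ρ < ρ' ∧ Expands a b ρ ρ') :
    ∃ f : ℂ → ℂ, IsContinuation a b {s | 1 < s.re} f ∧ FiniteInSectors f := by
  have E := Pool.Agent.TH942.ES.curve_sys a b
  obtain ⟨g, h1, h2, h3⟩ := glueM (L := LL a b) (fun ρ hρ => by
    obtain ⟨ρ', hρ', Z, m, hZ, hexp⟩ := h ρ hρ
    have hZ' : ∀ γ ∈ sh Z, γ ∈ Sect ρ ∧ γ.re ≤ 1 / 2 := by
      intro γ hγ
      obtain ⟨h1, h2⟩ := hZ _ (mem_sh hγ)
      rw [sector_shift, add_sub_cancel_right] at h1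
      rw [Complex.add_re, Complex.one_re] at h2
      exact ⟨h1, by linarith⟩
    obtain ⟨H, e1, e2⟩ := cont_of_exp E hρ hρ' hZ' ((exp_iff a b ρ ρ' Z m).1 hexp)
    exact ⟨H, sh Z, fun γ => m (γ + 1), fun s hs => e1 s (Or.inl hs), fun s _ hs => e2 s hs⟩)
  refine ⟨fun s => g (s - 1), ⟨fun s hs => ?_, fun s hs => ?_⟩, fun ρ hρ => ?_⟩
  · refine meromorphicAt_fun_comp_sub_const_iff_meromorphicAt.2 (h1 _ ?_)
    have : 1 < s.re := hs
    change 0 < (s - 1).re
    rw [Complex.sub_re, Complex.one_re]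
    linarith
  · rw [isL_iff a b hs]
    refine h3 _ ?_
    rw [Complex.sub_re, Complex.one_re]
    linarith
  · refine ((h2 ρ hρ).image fun s => s + 1).subset fun s hs => ⟨s - 1, ⟨?_, ?_⟩, by ring⟩
    · exact (sector_shift ρ s).1 hs.1
    · have h4 := hs.2
      rwa [meromorphicOrderAt_fun_comp_sub_const_eq_meromorphicOrderAt] at h4

/-- **Theorem.** Let `K` be a number field, `a, b ∈ 𝓞_K`, `E : y² = x³ + a x + b`.

(1) For all `ρ' > ρ > 1` and all finite divisors `∑ m(β) [β]` in the sector `|arg (s - 1)| < π/(2ρ)`, to the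
left of `Re s = 3/2`: `L(E, s)` has a meromorphic continuation to the union of the half plane `Re s > 3/2`
and the sector with this divisor if and only if the means `S_ρ(Y)` are
`∑ m(β) Ein((β - 1)^ρ (log Y)^ρ) + O(exp(ε (log Y)^ρ))` for every `ε > 0`.

(2) `L(E, s)` has a meromorphic continuation to the half plane `Re s > 1` with finitely many zeros and
poles in each of the sectors, `ρ > 1`, if and only if for every `ρ > 1` the means have such an expansion
with some finite divisor (for one `ρ' > ρ`, or for all).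

(3) If `L(E, s)` has a meromorphic continuation to `ℂ`, the means have such expansions for all `ρ > 1`. -/
theorem result (a b : 𝓞 K) :
    (∀ ρ ρ' : ℝ, 1 < ρ → ρ < ρ' → ∀ (Z : Finset ℂ) (m : ℂ → ℤ), InSector ρ Z →
      (ContinuesWith a b (Sector ρ) Z m ↔ Expansion a b ρ ρ' Z m)) ∧
    ((∃ f : ℂ → ℂ, IsContinuation a b {s | 1 < s.re} f ∧ FiniteInSectors f) ↔
      ∀ ρ : ℝ, 1 < ρ → ∃ ρ' : ℝ, ρ < ρ' ∧ Expands a b ρ ρ') ∧
    ((∃ f : ℂ → ℂ, IsContinuation a b {s | 1 < s.re} f ∧ FiniteInSectors f) ↔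
      ∀ ρ ρ' : ℝ, 1 < ρ → ρ < ρ' → Expands a b ρ ρ') ∧
    ((∃ f : ℂ → ℂ, IsContinuation a b Set.univ f) →
      ∀ ρ ρ' : ℝ, 1 < ρ → ρ < ρ' → Expands a b ρ ρ') := by
  refine ⟨fun ρ ρ' hρ hρ' Z m hZ => crit a b hρ hρ' hZ m, ⟨?_, half_of_expands a b⟩,
    ⟨?_, fun h => half_of_expands a b fun ρ hρ => ⟨ρ + 1, lt_add_one ρ, h ρ _ hρ (lt_add_one ρ)⟩⟩, ?_⟩
  · rintro ⟨f, h1, h2⟩ ρ hρ
    exact ⟨ρ + 1, lt_add_one ρ, expands_half a b h1 h2 hρ (lt_add_one ρ)⟩
  · rintro ⟨f, h1, h2⟩ ρ ρ' hρ hρ'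
    exact expands_half a b h1 h2 hρ hρ'
  · rintro ⟨f, h1⟩ ρ ρ' hρ hρ'
    exact expands_plane a b h1 hρ hρ'

end Pool.Agent.Results.MP_0d9be2_nt.MeromorphicHalfPlane
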