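import Pool.Agent.V11217.NWL

/-!
# The meromorphic continuation of the L-series of an elliptic curve and its values at the integers

Let `E : y² = x³ + a x + b`, `a, b ∈ 𝓞_K`, be an elliptic curve over a number field `K`. For the primes `v` which
do not divide `6 (4 a³ + 27 b²)` let `N v` be the norm and `N_v + 1` the number of points modulo `v`. At finitely
many other primes (the finite set `S`) let the Euler factors be `∏ (1 - β_{v,i} N v^{-s})⁻¹` with two arbitrary
numbers of absolute value at most `N v`; the true Euler factors at the primes dividing `6 (4 a³ + 27 b²)` are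
of this form, so `L(E, s)` is among the functions `L` considered here.

For totally real fields and CM fields the meromorphic continuation comes (by potential modularity and Brauer's
theorem) from a representation `L = L₁ / Q` with Dirichlet series `Q` and `L₁ = Q L`, absolutely convergent
for `Re s > 3/2`, which both have entire continuations, of polynomial growth in right half planes. For general
`K` the existence of such a `Q` is open. It is shown that it can be seen from the VALUES AT THE INTEGERS. For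
`h, n ≥ 1` and a function `f` let

`Δ_f(h, n) = ∑_{k ≤ n} (-1)^k (n choose k) f(2 + h k)`.

Let `Q(s) = ∑ q_m (m + 1)^{-s}` be a Dirichlet series, absolutely convergent for `Re s ≥ 7/4`, `Q ≠ 0`.

1. For every `c ≥ 1/4`, `Q` and `Q L` have holomorphic continuations to `Re s > 2 - c` which are of polynomial
   growth in `Re s ≥ 2 - α` for every `α < c`, IF AND ONLY IF for all `0 < α < c` there are `C, κ` with
   `|Δ_Q(h, n)|, |Δ_{QL}(h, n)| ≤ C h^κ n^{-α/h}` for all `h, n ≥ 1`.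
2. `Q` and `Q L` have entire continuations of polynomial growth in every right half plane IF AND ONLY IF this
   holds for every `α > 0`.
3. In these cases `L` has a meromorphic continuation to `Re s > 2 - c`, `c ≥ 1/2`, and to the whole plane. For
   this already the steps `h = 1` suffice: if `Δ_Q(1, n)` and `Δ_{QL}(1, n)` are `O(n^{-α})` for all `α > 0`,
   then `L` has a meromorphic continuation to the whole plane.

No continuation is assumed, nor modularity.

Proof. `L(2 + w)` and `Q(2 + w)` are absolutely convergent general Dirichlet series for `Re w ≥ -1/4`. If the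
differences are small, then Newton's interpolation series with step `h` converge in the larger half plane, where
they all agree, and the series with the step `h ∼ |w|` gives the growth. Conversely the differences are the
integrals of Nörlund and Rice, `2π Δ_f(h, n) = ∫ f(2 - h s) B(s, n + 1)`, over the line `Re s = α/h`, with the
beta function `B`.
-/

set_option autoImplicit false

namespace Pool.Agent.Results.MP_0d9be2_nt.ValuesAtIntegers

open Filter Topology NumberField IsDedekindDomain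

variable {K : Type} [Field K] [NumberField K]

/-- The norm of `v`. -/
noncomputable def nrm (v : HeightOneSpectrum (𝓞 K)) : ℕ := Ideal.absNorm v.asIdeal

/-- `v` does not divide `6 (4 a³ + 27 b²)`. -/
def Good (a b : 𝓞 K) (v : HeightOneSpectrum (𝓞 K)) : Prop :=
  6 * (4 * a ^ 3 + 27 * b ^ 2) ∉ v.asIdeal

/-- The number of affine points of `y² = x³ + a x + b` modulo `v`. -/
noncomputable def pts (a b : 𝓞 K) (v : HeightOneSpectrum (𝓞 K)) : ℕ :=
  Nat.card {P : (𝓞 K ⧸ v.asIdeal) × (𝓞 K ⧸ v.asIdeal) //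
    P.2 ^ 2 = P.1 ^ 3 + Ideal.Quotient.mk v.asIdeal a * P.1 + Ideal.Quotient.mk v.asIdeal b}

/-- The Euler factor `(1 - a_v (N v)^{-s} + (N v)^{1 - 2s})⁻¹`, `a_v = N v - N_v`. -/
noncomputable def factor (a b : 𝓞 K) (v : HeightOneSpectrum (𝓞 K)) (s : ℂ) : ℂ :=
  (1 - ((nrm v : ℂ) - pts a b v) * (nrm v : ℂ) ^ (-s) + (nrm v : ℂ) ^ (1 - 2 * s))⁻¹

/-- The Euler product: the factors at all good primes, and at the primes of the finite set `S` the factors
with the inverse roots `β v i`. -/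
noncomputable def euler (a b : 𝓞 K) (S : Finset (HeightOneSpectrum (𝓞 K)))
    (β : HeightOneSpectrum (𝓞 K) → Fin 2 → ℂ) (s : ℂ) : ℂ :=
  (∏' v : {v // Good a b v}, factor a b v.1 s) * ∏ v ∈ S, ∏ i, (1 - β v i * (nrm v : ℂ) ^ (-s))⁻¹

/-- The Dirichlet series `∑ q_m (m + 1)^{-s}`. -/
noncomputable def dirichlet (q : ℕ → ℂ) (s : ℂ) : ℂ := ∑' m : ℕ, q m * ((m : ℂ) + 1) ^ (-s)

/-- The Dirichlet series converges absolutely for `Re s ≥ 7/4` and is not identically zero. -/
def Admissible (q : ℕ → ℂ) : Prop :=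
  (Summable fun m : ℕ => ‖q m‖ * ((m : ℝ) + 1) ^ (-(7 / 4) : ℝ)) ∧ ∃ s : ℂ, 7 / 4 < s.re ∧ dirichlet q s ≠ 0

/-- The `n`-th difference with step `h` of the values `f(2), f(2 + h), f(2 + 2 h), …`. -/
noncomputable def difference (f : ℂ → ℂ) (h n : ℕ) : ℂ :=
  ∑ k ∈ Finset.range (n + 1), (-1 : ℂ) ^ k * (n.choose k : ℂ) * f (2 + h * k)

/-- The bound `C h^κ n^{-α/h}` for the differences, for all steps `h` and all orders `n`. -/
def SmallDifferences (f : ℂ → ℂ) (α : ℝ) : Prop :=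
  ∃ (C : ℝ) (κ : ℕ), ∀ h n : ℕ, 1 ≤ h → 1 ≤ n →
    ‖difference f h n‖ ≤ C * (h : ℝ) ^ κ * (n : ℝ) ^ (-(α / h))

/-- `f(s)`, `Re s > 7/4`, has a holomorphic continuation to `Re s > 2 - c` which is of polynomial growth in
`Re s ≥ 2 - α` for every `α < c`. -/
def Continues (f : ℂ → ℂ) (c : ℝ) : Prop :=
  ∃ G : ℂ → ℂ, (∀ s : ℂ, 2 - c < s.re → DifferentiableAt ℂ G s) ∧ (∀ s : ℂ, 7 / 4 < s.re → G s = f s) ∧
    ∀ α : ℝ, α < c → ∃ (B : ℝ) (κ : ℕ), ∀ s : ℂ, 2 - α ≤ s.re → ‖G s‖ ≤ B * (1 + ‖s‖) ^ κ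

/-- `f(s)`, `Re s > 7/4`, has an entire continuation of polynomial growth in every right half plane. -/
def ContinuesEverywhere (f : ℂ → ℂ) : Prop :=
  ∃ G : ℂ → ℂ, Differentiable ℂ G ∧ (∀ s : ℂ, 7 / 4 < s.re → G s = f s) ∧
    ∀ σ : ℝ, ∃ (B : ℝ) (κ : ℕ), ∀ s : ℂ, σ ≤ s.re → ‖G s‖ ≤ B * (1 + ‖s‖) ^ κ

/-- `f(s)`, `Re s > 3/2`, has a meromorphic continuation to the open set `U`. -/
def Meromorphic (f : ℂ → ℂ) (U : Set ℂ) : Prop :=
  ∃ M : ℂ → ℂ, MeromorphicOn M U ∧ ∀ s : ℂ, 3 / 2 < s.re → M s = f s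

open Pool.Agent.V11217.NW

theorem euler_eq (a b : 𝓞 K) (S : Finset (HeightOneSpectrum (𝓞 K)))
    (β : HeightOneSpectrum (𝓞 K) → Fin 2 → ℂ) : euler a b S β = Lw a b S β := by
  funext s
  unfold euler Lw
  congr 1
  unfold Pool.Agent.TH942.ES.LE
  refine tprod_congr fun v => ?_
  have h := Pool.Agent.TH942.ES.curve_factor (a := a) (b := b) v (s - 1)
  rw [add_sub_cancel] at h
  exact h.symm

theorem diff_eq (L : ℂ → ℂ) (h n : ℕ) : D (fun w => L (2 + w)) h n = difference L h n := by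
  unfold D difference
  refine Finset.sum_congr rfl fun k _ => ?_
  push_cast
  rfl

theorem small_iff (L : ℂ → ℂ) (α : ℝ) :
    SmallDifferences L α ↔ ∃ (C : ℝ) (κ : ℕ), DB (fun w => L (2 + w)) α C κ := by
  unfold SmallDifferences DB
  simp only [diff_eq]

/-- two holomorphic functions which agree for `Re s > τ` agree for `Re s > σ` -/
theorem agree {G L : ℂ → ℂ} {σ τ : ℝ} (hG : ∀ s : ℂ, σ < s.re → DifferentiableAt ℂ G s)
    (hL : ∀ s : ℂ, σ < s.re → DifferentiableAt ℂ L s) (h : ∀ s : ℂ, τ < s.re → G s = L s) :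
    ∀ s : ℂ, σ < s.re → G s = L s := by
  have hU : IsOpen {z : ℂ | σ < z.re} := isOpen_lt continuous_const Complex.continuous_re
  have hpre : IsPreconnected {z : ℂ | σ < z.re} := (convex_halfSpace_re_gt σ).isPreconnected
  have hA1 : AnalyticOnNhd ℂ G {z : ℂ | σ < z.re} :=
    DifferentiableOn.analyticOnNhd (fun z hz => (hG z hz).differentiableWithinAt) hU
  have hA2 : AnalyticOnNhd ℂ L {z : ℂ | σ < z.re} :=
    DifferentiableOn.analyticOnNhd (fun z hz => (hL z hz).differentiableWithinAt) hU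
  have hz0 : ((max σ τ + 1 : ℝ) : ℂ).re = max σ τ + 1 := Complex.ofReal_re _
  have hm1 := le_max_left σ τ
  have hm2 := le_max_right σ τ
  have hev : G =ᶠ[𝓝 ((max σ τ + 1 : ℝ) : ℂ)] L := by
    have : {z : ℂ | τ < z.re} ∈ 𝓝 ((max σ τ + 1 : ℝ) : ℂ) :=
      (isOpen_lt continuous_const Complex.continuous_re).mem_nhds (by
        change τ < _
        rw [hz0]
        linarith)
    filter_upwards [this] with z hz
    exact h z hz
  exact fun s hs => hA1.eqOn_of_preconnected_of_eventuallyEq hA2 hpre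
    (z₀ := ((max σ τ + 1 : ℝ) : ℂ)) (by
      change σ < _
      rw [hz0]
      linarith) hev hs

theorem shift_growth {G : ℂ → ℂ} {B : ℝ} {κ : ℕ} {σ : ℝ} {z : ℂ} (hz : ‖z‖ ≤ 2)
    (h : ∀ s : ℂ, σ ≤ s.re → ‖G s‖ ≤ B * (1 + ‖s‖) ^ κ) :
    ∀ s : ℂ, σ ≤ (s + z).re → ‖G (s + z)‖ ≤ |B| * 3 ^ κ * (1 + ‖s‖) ^ κ := by
  intro s hs
  refine (h _ hs).trans ?_
  have h5 : 1 + ‖s + z‖ ≤ 3 * (1 + ‖s‖) := by
    have := norm_add_le s z
    have := norm_nonneg s
    linarith
  calc B * (1 + ‖s + z‖) ^ κ ≤ |B| * (3 * (1 + ‖s‖)) ^ κ :=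
        mul_le_mul (le_abs_self B) (pow_le_pow_left₀ (by positivity) h5 _) (by positivity)
          (abs_nonneg _)
    _ = _ := by rw [mul_pow]; ring

theorem re_p (w : ℂ) : (w + 2).re = w.re + 2 := by simp

theorem re_m (s : ℂ) : (s + -2).re = s.re - 2 := by
  simp
  ring

theorem cont_iff (L : ℂ → ℂ) {c : ℝ} (hc : 1 / 4 ≤ c)
    (hL : ∀ s : ℂ, 7 / 4 < s.re → DifferentiableAt ℂ L s) :
    Continues L c ↔ ∃ Gf : ℂ → ℂ, Continuation (fun w => L (2 + w)) c Gf := by
  constructor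
  · rintro ⟨G, h1, h2, h3⟩
    refine ⟨fun w => G (w + 2), fun w hw => ?_, fun w hw => ?_, fun α hα => ?_⟩
    · have h4 : DifferentiableAt ℂ G (w + 2) := h1 _ (by rw [re_p]; linarith)
      exact DifferentiableAt.comp (f := fun w : ℂ => w + 2) w h4 (by fun_prop)
    · beta_reduce
      rw [add_comm 2 w]
      exact h2 _ (by rw [re_p]; linarith)
    · obtain ⟨B, κ, h4⟩ := h3 α hα
      exact ⟨_, κ, fun w hw => shift_growth (z := 2) (by simp) h4 w (by rw [re_p]; linarith)⟩
  · rintro ⟨G, h1, h2, h3⟩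
    have h0 : ∀ s : ℂ, 2 - c < s.re → DifferentiableAt ℂ (fun s => G (s + -2)) s := by
      intro s hs
      have h4 : DifferentiableAt ℂ G (s + -2) := h1 _ (by rw [re_m]; linarith)
      exact DifferentiableAt.comp (f := fun s : ℂ => s + -2) s h4 (by fun_prop)
    refine ⟨fun s => G (s + -2), h0, ?_, fun α hα => ?_⟩
    · refine agree (τ := 2) (fun s hs => h0 s (by linarith)) hL fun s hs => ?_
      rw [h2 (s + -2) (by rw [re_m]; linarith)]
      beta_reduce
      congr 1
      ring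
    · obtain ⟨B, κ, h5⟩ := h3 α hα
      exact ⟨_, κ, fun s hs => shift_growth (z := -2) (by simp) h5 s (by rw [re_m]; linarith)⟩

theorem every_iff (L : ℂ → ℂ) {ι : Type} [Countable ι] {cc : ι → ℂ} {l : ι → ℝ}
    (R : Rep (1 / 4) (fun w => L (2 + w)) cc l)
    (hL : ∀ s : ℂ, 7 / 4 < s.re → DifferentiableAt ℂ L s) :
    ContinuesEverywhere L ↔ ∀ α : ℝ, 0 < α → SmallDifferences L α := by
  constructor
  · rintro ⟨G, g1, g2, g3⟩ α hα
    rw [small_iff]
    exact (criterion' R (c₀ := α + 1) (by linarith)).1 ((cont_iff L (by linarith) hL).1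
      ⟨G, fun s _ => g1 s, g2, fun α' _ => g3 (2 - α')⟩) α hα (by linarith)
  · intro H
    obtain ⟨h1, h2, h3⟩ := continues_everywhere R (by norm_num) (fun α hα => (small_iff L α).1 (H α hα))
    have h0 : ∀ s : ℂ, DifferentiableAt ℂ (fun s => G (fun w => L (2 + w)) 1 (s + -2)) s := fun s =>
      DifferentiableAt.comp (f := fun s : ℂ => s + -2) s (h1 (s + -2)) (by fun_prop)
    refine ⟨fun s => G (fun w => L (2 + w)) 1 (s + -2), h0, ?_, fun σ => ?_⟩
    · refine agree (τ := 2) (fun s _ => h0 s) hL fun s hs => ?_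
      rw [h2 (s + -2) (by rw [re_m]; linarith)]
      congr 1
      ring
    · obtain ⟨B, κ, h5⟩ := h3 (σ - 2)
      exact ⟨_, κ, fun s hs => shift_growth (z := -2) (by simp) h5 s (by rw [re_m]; linarith)⟩

/-- one step suffices -/
theorem one_step_entire (L : ℂ → ℂ) {ι : Type} {cc : ι → ℂ} {l : ι → ℝ}
    (R : Rep (1 / 4) (fun w => L (2 + w)) cc l)
    (hL : ∀ s : ℂ, 7 / 4 < s.re → DifferentiableAt ℂ L s)
    (H : ∀ α : ℝ, ∃ C : ℝ, ∀ n : ℕ, 1 ≤ n → ‖difference L 1 n‖ ≤ C * (n : ℝ) ^ (-α)) :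
    ∃ G : ℂ → ℂ, Differentiable ℂ G ∧ ∀ s : ℂ, 7 / 4 < s.re → G s = L s := by
  have h2 := one_step R (by norm_num) (fun α => by
    obtain ⟨C, hC⟩ := H α
    exact ⟨C, fun n hn => by rw [diff_eq]; exact hC n hn⟩)
  have h0 : ∀ s : ℂ, DifferentiableAt ℂ (fun s => G (fun w => L (2 + w)) 1 (s + -2)) s := fun s =>
    DifferentiableAt.comp (f := fun s : ℂ => s + -2) s (h2.1 (s + -2)) (by fun_prop)
  refine ⟨fun s => G (fun w => L (2 + w)) 1 (s + -2), h0, ?_⟩
  refine agree (τ := 2) (fun s _ => h0 s) hL fun s hs => ?_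
  rw [h2.2 (s + -2) (by rw [re_m]; linarith)]
  congr 1
  ring

/-- the quotient is meromorphic -/
theorem quotient {L Q G₁ G₂ : ℂ → ℂ} {c : ℝ} (hc : 1 / 2 ≤ c)
    (hL : ∀ s : ℂ, 3 / 2 < s.re → DifferentiableAt ℂ L s)
    (h1 : ∀ s : ℂ, 2 - c < s.re → DifferentiableAt ℂ G₁ s)
    (h2 : ∀ s : ℂ, 2 - c < s.re → DifferentiableAt ℂ G₂ s)
    (e2 : ∀ s : ℂ, 7 / 4 < s.re → G₂ s = Q s) (e1 : ∀ s : ℂ, 7 / 4 < s.re → G₁ s = Q s * L s)
    (hQ : ∃ s : ℂ, 7 / 4 < s.re ∧ Q s ≠ 0) {M : ℂ → ℂ} (hM1 : ∀ s : ℂ, 3 / 2 < s.re → M s = L s)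
    (hM2 : ∀ s : ℂ, s.re ≤ 3 / 2 → M s = G₁ s / G₂ s) {x : ℂ} (hx : 2 - c < x.re) : MeromorphicAt M x := by
  have hU : IsOpen {z : ℂ | 2 - c < z.re} := isOpen_lt continuous_const Complex.continuous_re
  have hA2 : AnalyticOnNhd ℂ G₂ {z : ℂ | 2 - c < z.re} :=
    DifferentiableOn.analyticOnNhd (fun z hz => (h2 z hz).differentiableWithinAt) hU
  have hA1 : AnalyticOnNhd ℂ G₁ {z : ℂ | 2 - c < z.re} :=
    DifferentiableOn.analyticOnNhd (fun z hz => (h1 z hz).differentiableWithinAt) hU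
  have hEq : ∀ s : ℂ, 3 / 2 < s.re → G₁ s = G₂ s * L s :=
    agree (τ := 7 / 4) (fun s hs => h1 s (by linarith)) (fun s hs => (h2 s (by linarith)).mul (hL s hs))
      fun s hs => by rw [e1 s hs, e2 s hs]
  obtain ⟨s₀, hs₀, hne⟩ := hQ
  have hxU : x ∈ {z : ℂ | 2 - c < z.re} := hx
  have hiso : ∀ᶠ z in 𝓝[≠] x, G₂ z ≠ 0 := by
    rcases (hA2 x hxU).eventually_eq_zero_or_eventually_ne_zero with h0 | h0
    · exfalso
      have h3 := hA2.eqOn_zero_of_preconnected_of_eventuallyEq_zero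
        (convex_halfSpace_re_gt (2 - c)).isPreconnected hxU h0
      have h4 : G₂ s₀ = 0 := h3 (by
        change 2 - c < s₀.re
        linarith)
      rw [e2 s₀ hs₀] at h4
      exact hne h4
    · exact h0
  have hmer : MeromorphicAt (fun s => G₁ s / G₂ s) x :=
    (hA1 x hxU).meromorphicAt.div (hA2 x hxU).meromorphicAt
  refine hmer.congr ?_
  filter_upwards [hiso] with z hz
  rcases lt_or_ge (3 / 2) z.re with h | h
  · rw [hM1 z h, hEq z h]
    field_simp
  · rw [hM2 z h]

/-- **Theorem.** Let `K` be a number field, `a, b ∈ 𝓞_K`, `E : y² = x³ + a x + b`, and let `L` be the Euler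
product over the primes not dividing `6 (4 a³ + 27 b²)`, with arbitrary Euler factors with inverse roots of
absolute value at most `N v` at a finite set `S` of primes. Let `Q` be a Dirichlet series, absolutely
convergent for `Re s ≥ 7/4` and not identically zero.

(1) For every `c ≥ 1/4`, `Q` and `Q L` have holomorphic continuations to `Re s > 2 - c`, of polynomial growth
in `Re s ≥ 2 - α` for all `α < c`, if and only if for all `0 < α < c` the differences
`∑_{k ≤ n} (-1)^k (n choose k) f(2 + h k)`, `f = Q` and `f = Q L`, are `O(h^κ n^{-α/h})` for some `κ`,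
uniformly in `h, n ≥ 1`. If `c ≥ 1/2`, then `L` has a meromorphic continuation to `Re s > 2 - c`.

(2) `Q` and `Q L` have entire continuations of polynomial growth in every right half plane if and only if this
holds for all `α > 0`. Then `L` has a meromorphic continuation to the whole plane.

(3) If `∑_{k ≤ n} (-1)^k (n choose k) f(2 + k) = O(n^{-α})` for every `α`, `f = Q` and `f = Q L`, then `L` has
a meromorphic continuation to the whole plane. -/
theorem result (a b : 𝓞 K) (S : Finset (HeightOneSpectrum (𝓞 K)))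
    (β : HeightOneSpectrum (𝓞 K) → Fin 2 → ℂ) (hβ : ∀ v ∈ S, ∀ i, ‖β v i‖ ≤ nrm v)
    (q : ℕ → ℂ) (hq : Admissible q) :
    (∀ c : ℝ, 1 / 4 ≤ c →
      ((Continues (dirichlet q) c ∧ Continues (fun s => dirichlet q s * euler a b S β s) c) ↔
        ∀ α : ℝ, 0 < α → α < c → SmallDifferences (dirichlet q) α ∧
          SmallDifferences (fun s => dirichlet q s * euler a b S β s) α)) ∧
    (∀ c : ℝ, 1 / 2 ≤ c →
      Continues (dirichlet q) c → Continues (fun s => dirichlet q s * euler a b S β s) c →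
        Meromorphic (euler a b S β) {s : ℂ | 2 - c < s.re}) ∧
    ((ContinuesEverywhere (dirichlet q) ∧ ContinuesEverywhere (fun s => dirichlet q s * euler a b S β s)) ↔
      ∀ α : ℝ, 0 < α → SmallDifferences (dirichlet q) α ∧
        SmallDifferences (fun s => dirichlet q s * euler a b S β s) α) ∧
    (ContinuesEverywhere (dirichlet q) →
      ContinuesEverywhere (fun s => dirichlet q s * euler a b S β s) →
        Meromorphic (euler a b S β) Set.univ) ∧
    ((∀ α : ℝ, ∃ C : ℝ, ∀ n : ℕ, 1 ≤ n → ‖difference (dirichlet q) 1 n‖ ≤ C * (n : ℝ) ^ (-α) ∧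
        ‖difference (fun s => dirichlet q s * euler a b S β s) 1 n‖ ≤ C * (n : ℝ) ^ (-α)) →
      Meromorphic (euler a b S β) Set.univ) := by
  have hL : ∀ s : ℂ, 3 / 2 < s.re → DifferentiableAt ℂ (euler a b S β) s := by
    rw [euler_eq]
    exact fun s hs => Lw_diff a b S hβ hs
  obtain ⟨hq1, hq2⟩ := hq
  have hQ : ∀ s : ℂ, 7 / 4 < s.re → DifferentiableAt ℂ (dirichlet q) s := fun s hs => dser_diff hq1 hs
  have hQL : ∀ s : ℂ, 7 / 4 < s.re →
      DifferentiableAt ℂ (fun s => dirichlet q s * euler a b S β s) s := fun s hs =>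
    (hQ s hs).mul (hL s (by linarith))
  obtain ⟨ι, hι, cc, l, R⟩ := total_rep a b S hβ
  rw [← euler_eq] at R
  have R1 : Rep (1 / 4) (fun w => dirichlet q (2 + w)) _ _ := dser_rep hq1
  have R2 : Rep (1 / 4) (fun w => (fun s => dirichlet q s * euler a b S β s) (2 + w)) _ _ := R1.mul R
  have hglob : ∀ G₁ G₂ : ℂ → ℂ, Differentiable ℂ G₁ → Differentiable ℂ G₂ →
      (∀ s : ℂ, 7 / 4 < s.re → G₂ s = dirichlet q s) →
      (∀ s : ℂ, 7 / 4 < s.re → G₁ s = dirichlet q s * euler a b S β s) →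
      Meromorphic (euler a b S β) Set.univ := by
    classical
    intro G₁ G₂ g1 g2 g3 g4
    refine ⟨fun s => if 3 / 2 < s.re then euler a b S β s else G₁ s / G₂ s, fun x _ => ?_,
      fun s hs => if_pos hs⟩
    exact quotient (c := |x.re| + 3) (by have := abs_nonneg x.re; linarith) hL (fun s _ => g1 s)
      (fun s _ => g2 s) g3 g4 hq2 (fun s hs => if_pos hs) (fun s hs => if_neg (not_lt.2 hs))
      (by linarith [neg_abs_le x.re])
  refine ⟨fun c hc => ?_, ?_, ?_, ?_, ?_⟩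
  · rw [cont_iff _ hc hQ, cont_iff _ hc hQL, criterion' R1 (by linarith), criterion' R2 (by linarith)]
    simp only [small_iff]
    constructor
    · rintro ⟨h1, h2⟩ α hα hαc
      exact ⟨h1 α hα hαc, h2 α hα hαc⟩
    · intro h
      exact ⟨fun α hα hαc => (h α hα hαc).1, fun α hα hαc => (h α hα hαc).2⟩
  · classical
    rintro c hc ⟨G₂, g1, g2, -⟩ ⟨G₁, g3, g4, -⟩
    exact ⟨fun s => if 3 / 2 < s.re then euler a b S β s else G₁ s / G₂ s, fun x hx =>
      quotient hc hL g3 g1 g2 g4 hq2 (fun s hs => if_pos hs) (fun s hs => if_neg (not_lt.2 hs)) hx,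
      fun s hs => if_pos hs⟩
  · rw [every_iff _ R1 hQ, every_iff _ R2 hQL]
    constructor
    · rintro ⟨h1, h2⟩ α hα
      exact ⟨h1 α hα, h2 α hα⟩
    · intro h
      exact ⟨fun α hα => (h α hα).1, fun α hα => (h α hα).2⟩
  · rintro ⟨G₂, g1, g2, -⟩ ⟨G₁, g3, g4, -⟩
    exact hglob G₁ G₂ g3 g1 g2 g4
  · intro H
    obtain ⟨G₂, g1, g2⟩ := one_step_entire _ R1 hQ (fun α => by
      obtain ⟨C, hC⟩ := H α
      exact ⟨C, fun n hn => (hC n hn).1⟩)
    obtain ⟨G₁, g3, g4⟩ := one_step_entire _ R2 hQL (fun α => by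
      obtain ⟨C, hC⟩ := H α
      exact ⟨C, fun n hn => (hC n hn).2⟩)
    exact hglob G₁ G₂ g3 g1 g2 g4

end Pool.Agent.Results.MP_0d9be2_nt.ValuesAtIntegers
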